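import Pool.Agent.Helper7.HL.Defs

/-!
# The periodic walk of a pair of columns
-/

set_option autoImplicit false

namespace Pool.Agent.Helper72.HL

open Finset
open Pool.Agent.Helper7.HL

variable {N : ℕ} {c d : Finset ℕ}

theorem wlk_zero (N : ℕ) (c d : Finset ℕ) : wlk N c d 0 = 0 := by
  simp [wlk]

theorem wlk_succ (N : ℕ) (c d : Finset ℕ) (j : ℕ) : wlk N c d (j + 1) = wlk N c d j +
    ((if j % N ∈ d then 1 else 0) - (if j % N ∈ c then 1 else 0)) := by
  unfold wlk
  rw [sum_range_succ]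

theorem sum_mem (hd : d ⊆ range N) :
    ∑ i ∈ range N, (if i % N ∈ d then 1 else 0 : ℤ) = d.card := by
  have h1 : ∑ i ∈ range N, (if i % N ∈ d then 1 else 0 : ℤ) =
      ∑ i ∈ range N, (if i ∈ d then 1 else 0 : ℤ) := by
    refine sum_congr rfl fun i hi => ?_
    rw [Nat.mod_eq_of_lt (mem_range.mp hi)]
  rw [h1, Finset.sum_ite_mem, inter_eq_right.mpr hd]
  simp

theorem wlk_N (hc : c ⊆ range N) (hd : d ⊆ range N) :
    wlk N c d N = (d.card : ℤ) - c.card := by
  unfold wlk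
  rw [sum_sub_distrib, sum_mem hd, sum_mem hc]

theorem wlk_add (hc : c ⊆ range N) (hd : d ⊆ range N) (j : ℕ) :
    wlk N c d (j + N) = wlk N c d j - ((c.card : ℤ) - d.card) := by
  induction j with
  | zero =>
    rw [Nat.zero_add, wlk_N hc hd, wlk_zero]
    ring
  | succ j ih =>
    rw [show j + 1 + N = j + N + 1 by ring, wlk_succ, wlk_succ, ih, Nat.add_mod_right]
    ring

/-- the future maximum -/
noncomputable def Rm (N : ℕ) (c d : Finset ℕ) (a : ℕ) : ℤ :=
  (Icc a (a + N)).sup' ⟨a, mem_Icc.mpr ⟨le_rfl, Nat.le_add_right a N⟩⟩ (wlk N c d)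

/-- the positions which are larger than everything in the future -/
def Rec (N : ℕ) (c d : Finset ℕ) (a : ℕ) : Prop :=
  ∀ j ∈ Ioc a (a + N), wlk N c d j < wlk N c d a

theorem le_Rm' {a j : ℕ} (h1 : a ≤ j) (h2 : j ≤ a + N) : wlk N c d j ≤ Rm N c d a :=
  le_sup' (wlk N c d) (mem_Icc.mpr ⟨h1, h2⟩)

theorem ex_Rm (N : ℕ) (c d : Finset ℕ) (a : ℕ) :
    ∃ j, a ≤ j ∧ j ≤ a + N ∧ wlk N c d j = Rm N c d a := by
  obtain ⟨j, hj, h⟩ := exists_mem_eq_sup' (s := Icc a (a + N))
    ⟨a, mem_Icc.mpr ⟨le_rfl, Nat.le_add_right a N⟩⟩ (wlk N c d)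
  rw [mem_Icc] at hj
  exact ⟨j, hj.1, hj.2, h.symm⟩

theorem le_Rm (hN : 0 < N) (hc : c ⊆ range N) (hd : d ⊆ range N) (hcd : d.card ≤ c.card)
    {a j : ℕ} (h1 : a ≤ j) : wlk N c d j ≤ Rm N c d a := by
  induction j using Nat.strong_induction_on with
  | _ j ih =>
    by_cases h2 : j ≤ a + N
    · exact le_Rm' h1 h2
    · have h3 := ih (j - N) (by omega) (by omega)
      have h4 := wlk_add hc hd (j - N)
      rw [Nat.sub_add_cancel (by omega)] at h4
      have h5 : (d.card : ℤ) ≤ c.card := by exact_mod_cast hcd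
      omega

theorem rec_iff (hN : 0 < N) (hc : c ⊆ range N) (hd : d ⊆ range N) (hcd : d.card ≤ c.card)
    (a : ℕ) : Rec N c d a ↔ Rm N c d (a + 1) < wlk N c d a := by
  have h5 : (d.card : ℤ) ≤ c.card := by exact_mod_cast hcd
  constructor
  · intro h
    obtain ⟨j, hj1, hj2, hj3⟩ := ex_Rm N c d (a + 1)
    rw [← hj3]
    by_cases h2 : j ≤ a + N
    · exact h j (mem_Ioc.mpr ⟨by omega, h2⟩)
    · have h3 := h (a + 1) (mem_Ioc.mpr ⟨by omega, by omega⟩)
      have h4 := wlk_add hc hd (a + 1)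
      rw [show j = a + 1 + N by omega, h4]
      omega
  · intro h j hj
    rw [mem_Ioc] at hj
    exact lt_of_le_of_lt (le_Rm hN hc hd hcd (by omega)) h

theorem wlk_step (N : ℕ) (c d : Finset ℕ) (j : ℕ) :
    wlk N c d j ≤ wlk N c d (j + 1) + 1 := by
  rw [wlk_succ]
  split_ifs <;> omega

theorem Rm_step (hN : 0 < N) (hc : c ⊆ range N) (hd : d ⊆ range N) (hcd : d.card ≤ c.card)
    (a : ℕ) [Decidable (Rec N c d a)] :
    Rm N c d a = Rm N c d (a + 1) + if Rec N c d a then 1 else 0 := by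
  have h1 := le_Rm hN hc hd hcd (a := a + 1) (j := a + 1) le_rfl
  have h2 := wlk_step N c d a
  obtain ⟨j, hj1, hj2, hj3⟩ := ex_Rm N c d a
  obtain ⟨k, hk1, hk2, hk3⟩ := ex_Rm N c d (a + 1)
  have h3 := le_Rm hN hc hd hcd (a := a) (j := a) le_rfl
  have h4 := le_Rm hN hc hd hcd (a := a) (j := k) (by omega)
  have h6 : wlk N c d j ≤ max (wlk N c d a) (Rm N c d (a + 1)) := by
    by_cases hja : j = a
    · rw [hja]
      exact le_max_left _ _
    · exact (le_Rm hN hc hd hcd (by omega)).trans (le_max_right _ _)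
  split_ifs with h
  · have h7 := (rec_iff hN hc hd hcd a).mp h
    rw [max_eq_left h7.le] at h6
    omega
  · rw [rec_iff hN hc hd hcd] at h
    push Not at h
    rw [max_eq_right h] at h6
    omega

theorem Rm_add (hc : c ⊆ range N) (hd : d ⊆ range N) (a : ℕ) :
    Rm N c d (a + N) = Rm N c d a - ((c.card : ℤ) - d.card) := by
  obtain ⟨j, hj1, hj2, hj3⟩ := ex_Rm N c d a
  obtain ⟨k, hk1, hk2, hk3⟩ := ex_Rm N c d (a + N)
  have h1 := wlk_add hc hd j
  have h2 := wlk_add hc hd (k - N)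
  rw [Nat.sub_add_cancel (by omega)] at h2
  have h3 : wlk N c d (j + N) ≤ Rm N c d (a + N) := le_Rm' (by omega) (by omega)
  have h4 : wlk N c d (k - N) ≤ Rm N c d a := le_Rm' (by omega) (by omega)
  omega

theorem rec_add (hc : c ⊆ range N) (hd : d ⊆ range N) (a : ℕ) :
    Rec N c d (a + N) ↔ Rec N c d a := by
  have h0 := wlk_add hc hd a
  constructor
  · intro h j hj
    rw [mem_Ioc] at hj
    have h1 := h (j + N) (mem_Ioc.mpr ⟨by omega, by omega⟩)
    have h2 := wlk_add hc hd j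
    omega
  · intro h j hj
    rw [mem_Ioc] at hj
    have h1 := h (j - N) (mem_Ioc.mpr ⟨by omega, by omega⟩)
    have h2 := wlk_add hc hd (j - N)
    rw [Nat.sub_add_cancel (by omega)] at h2
    omega

theorem rec_mod (hc : c ⊆ range N) (hd : d ⊆ range N) (a : ℕ) :
    Rec N c d (a % N) ↔ Rec N c d a := by
  have h : ∀ k b : ℕ, Rec N c d (b + N * k) ↔ Rec N c d b := by
    intro k b
    induction k with
    | zero => rw [Nat.mul_zero, Nat.add_zero]
    | succ k ih => rw [Nat.mul_succ, ← Nat.add_assoc, rec_add hc hd, ih]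
  rw [← h (a / N) (a % N), Nat.mod_add_div]

theorem rec_mem (hN : 0 < N) {a : ℕ} (h : Rec N c d a) : a % N ∈ c ∧ a % N ∉ d := by
  have h1 := h (a + 1) (mem_Ioc.mpr ⟨by omega, by omega⟩)
  rw [wlk_succ] at h1
  constructor
  · by_contra hne
    rw [if_neg hne] at h1
    split_ifs at h1 <;> omega
  · intro hne
    rw [if_pos hne] at h1
    split_ifs at h1 <;> omega

theorem mem_Um {i : ℕ} : i ∈ Um N c d ↔ i ∈ c ∧ Rec N c d i := by
  unfold Um Rec
  rw [mem_filter]

theorem mem_Um' (hN : 0 < N) {i : ℕ} (hi : i < N) : i ∈ Um N c d ↔ Rec N c d i := by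
  rw [mem_Um]
  constructor
  · exact fun h => h.2
  · intro h
    have h1 := (rec_mem hN h).1
    rw [Nat.mod_eq_of_lt hi] at h1
    exact ⟨h1, h⟩

theorem Um_subset_c : Um N c d ⊆ c := fun _ hi => (mem_Um.mp hi).1

theorem Rm_sum (hN : 0 < N) (hc : c ⊆ range N) (hd : d ⊆ range N) (hcd : d.card ≤ c.card)
    (k : ℕ) (hk : k ≤ N) :
    Rm N c d 0 = Rm N c d k + ((range k).filter (fun i => i ∈ Um N c d)).card := by
  classical
  induction k with
  | zero => simp
  | succ k ih =>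
    rw [ih (by omega), Rm_step hN hc hd hcd k, range_add_one, filter_insert]
    by_cases h : Rec N c d k
    · rw [if_pos h, if_pos ((mem_Um' hN (by omega)).mpr h), card_insert_of_notMem]
      · push_cast
        ring
      · intro h1
        rw [mem_filter, mem_range] at h1
        omega
    · rw [if_neg h, if_neg (fun h1 => h ((mem_Um' hN (by omega)).mp h1)), add_zero]

theorem Um_card (hN : 0 < N) (hc : c ⊆ range N) (hd : d ⊆ range N) (hcd : d.card ≤ c.card) :
    (Um N c d).card + d.card = c.card := by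
  have h1 := Rm_sum hN hc hd hcd N le_rfl
  have h2 := Rm_add hc hd 0
  rw [Nat.zero_add] at h2
  have h3 : (range N).filter (fun i => i ∈ Um N c d) = Um N c d := by
    ext i
    rw [mem_filter]
    exact ⟨fun h => h.2, fun h => ⟨hc (Um_subset_c h), h⟩⟩
  rw [h3] at h1
  omega

theorem Hen_eq (N : ℕ) (c d : Finset ℕ) : (Hen N c d : ℤ) = Rm N c d 0 := by
  apply le_antisymm
  · obtain ⟨j, hj, h⟩ := exists_mem_eq_sup (range (N + 1)) ⟨0, mem_range.mpr (by omega)⟩
      (fun j => (wlk N c d j).toNat)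
    unfold Hen
    rw [h]
    rw [mem_range] at hj
    have h1 : wlk N c d j ≤ Rm N c d 0 := le_Rm' (by omega) (by omega)
    have h2 : wlk N c d 0 ≤ Rm N c d 0 := le_Rm' (by omega) (by omega)
    rw [wlk_zero] at h2
    rw [Int.toNat_eq_max]
    exact max_le h1 h2
  · obtain ⟨j, hj1, hj2, hj3⟩ := ex_Rm N c d 0
    rw [← hj3]
    have h1 : (wlk N c d j).toNat ≤ Hen N c d :=
      le_sup (f := fun j => (wlk N c d j).toNat) (mem_range.mpr (by omega))
    have h2 := Int.self_le_toNat (wlk N c d j)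
    have h3 : ((wlk N c d j).toNat : ℤ) ≤ (Hen N c d : ℤ) := by exact_mod_cast h1
    exact h2.trans h3

end Pool.Agent.Helper72.HL
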