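import Pool.Agent.Helper7.HL.Stmts
import Pool.Agent.Helper72.HL.Wlk

/-!
# Row BW1
-/

set_option autoImplicit false

namespace Pool.Agent.Helper72.HL

open Finset
open Pool.Agent.Helper7.HL

theorem st_BW1 : ST_BW1 := by
  intro N c d hc hd hcd
  have hsub : Rl N c d ⊆ range N := fun i hi => hc (mem_sdiff.mp hi).1
  rcases Nat.eq_zero_or_pos N with h0 | hN
  · subst h0
    have hc0 : c = ∅ := subset_empty.mp hc
    have hd0 : d = ∅ := subset_empty.mp hd
    subst hc0
    subst hd0
    refine ⟨?_, ?_, ?_, ?_, ?_, ?_⟩ <;> simp [Um, Rl, Rr]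
  have h1 := Um_card hN hc hd hcd
  have h2 : Um N c d ⊆ c \ d := by
    intro i hi
    have h3 := mem_Um.mp hi
    have h4 := (rec_mem hN h3.2).2
    rw [Nat.mod_eq_of_lt (mem_range.mp (hc h3.1))] at h4
    exact mem_sdiff.mpr ⟨h3.1, h4⟩
  refine ⟨h1, h2, ?_, ?_, hsub, ?_⟩
  · unfold Rl
    rw [card_sdiff_of_subset Um_subset_c]
    omega
  · unfold Rr
    rw [card_union_of_disjoint]
    · omega
    · rw [disjoint_left]
      intro i hi hi'
      exact (mem_sdiff.mp (h2 hi')).2 hi
  · unfold Rr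
    exact union_subset hd (fun i hi => hc (Um_subset_c hi))

end Pool.Agent.Helper72.HL
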