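import Pool.Agent.Helper7.HL.Stmts
import Pool.Agent.Helper72.HL.Wlk

/-!
# Row BW2: rotation
-/

set_option autoImplicit false

namespace Pool.Agent.Helper72.HL

open Finset
open Pool.Agent.Helper7.HL

variable {N : ℕ} {c d : Finset ℕ}

theorem rt_inj {i j : ℕ} (hi : i < N) (hj : j < N) (h : (i + 1) % N = (j + 1) % N) : i = j := by
  have h1 : (i + 1) % N = if i + 1 = N then 0 else i + 1 := by
    split_ifs with h2
    · rw [h2, Nat.mod_self]
    · exact Nat.mod_eq_of_lt (by omega)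
  have h2 : (j + 1) % N = if j + 1 = N then 0 else j + 1 := by
    split_ifs with h3
    · rw [h3, Nat.mod_self]
    · exact Nat.mod_eq_of_lt (by omega)
  rw [h1, h2] at h
  split_ifs at h <;> omega

theorem mem_rt (hN : 0 < N) (hc : c ⊆ range N) (i : ℕ) : (i + 1) % N ∈ rt N c ↔ i % N ∈ c := by
  unfold rt
  rw [mem_image]
  constructor
  · rintro ⟨j, hj, h⟩
    have h1 : (i + 1) % N = (i % N + 1) % N := by rw [Nat.mod_add_mod]
    rw [h1] at h
    have h2 := rt_inj (mem_range.mp (hc hj)) (Nat.mod_lt i hN) h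
    rwa [← h2]
  · intro h
    exact ⟨i % N, h, by rw [Nat.mod_add_mod]⟩

theorem rt_sub (hN : 0 < N) (c : Finset ℕ) : rt N c ⊆ range N := by
  intro i hi
  unfold rt at hi
  rw [mem_image] at hi
  obtain ⟨j, -, rfl⟩ := hi
  exact mem_range.mpr (Nat.mod_lt _ hN)

theorem rt_card (hc : c ⊆ range N) : (rt N c).card = c.card := by
  unfold rt
  refine card_image_of_injOn ?_
  intro i hi j hj h
  exact rt_inj (mem_range.mp (hc hi)) (mem_range.mp (hc hj)) h

theorem wlk_rt (hN : 0 < N) (hc : c ⊆ range N) (hd : d ⊆ range N) (j : ℕ) :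
    wlk N (rt N c) (rt N d) (j + 1) = wlk N (rt N c) (rt N d) 1 + wlk N c d j := by
  induction j with
  | zero => rw [wlk_zero, add_zero]
  | succ j ih =>
    rw [wlk_succ, ih, wlk_succ N c d j]
    simp only [mem_rt hN hc, mem_rt hN hd]
    ring

theorem wlk_rt1 (hN : 0 < N) (hc : c ⊆ range N) (hd : d ⊆ range N) :
    wlk N (rt N c) (rt N d) 1 =
      (if N - 1 ∈ d then 1 else 0) - (if N - 1 ∈ c then 1 else 0) := by
  have h1 := wlk_succ N (rt N c) (rt N d) 0
  rw [wlk_zero, Nat.zero_add, zero_add] at h1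
  have h2 : 0 % N = (N - 1 + 1) % N := by
    rw [Nat.sub_add_cancel hN, Nat.mod_self, Nat.zero_mod]
  rw [h2] at h1
  simp only [mem_rt hN hc, mem_rt hN hd, Nat.mod_eq_of_lt (show N - 1 < N by omega)] at h1
  exact h1

theorem rec_rt (hN : 0 < N) (hc : c ⊆ range N) (hd : d ⊆ range N) (a : ℕ) :
    Rec N (rt N c) (rt N d) (a + 1) ↔ Rec N c d a := by
  constructor
  · intro h j hj
    rw [mem_Ioc] at hj
    have h1 := h (j + 1) (mem_Ioc.mpr ⟨by omega, by omega⟩)
    rw [wlk_rt hN hc hd, wlk_rt hN hc hd a] at h1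
    omega
  · intro h j hj
    rw [mem_Ioc] at hj
    have h1 := h (j - 1) (mem_Ioc.mpr ⟨by omega, by omega⟩)
    have h2 := wlk_rt hN hc hd (j - 1)
    rw [Nat.sub_add_cancel (by omega)] at h2
    rw [h2, wlk_rt hN hc hd a]
    omega

theorem Um_rt (hN : 0 < N) (hc : c ⊆ range N) (hd : d ⊆ range N) :
    Um N (rt N c) (rt N d) = rt N (Um N c d) := by
  ext i
  constructor
  · intro h
    have hi : i < N := mem_range.mp (rt_sub hN c (Um_subset_c h))
    rw [mem_Um' hN hi] at h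
    have h1 : Rec N (rt N c) (rt N d) (i + N - 1 + 1) := by
      rw [show i + N - 1 + 1 = i + N by omega, rec_add (rt_sub hN c) (rt_sub hN d)]
      exact h
    rw [rec_rt hN hc hd, ← rec_mod hc hd] at h1
    unfold rt
    rw [mem_image]
    refine ⟨(i + N - 1) % N, (mem_Um' hN (Nat.mod_lt _ hN)).mpr h1, ?_⟩
    rw [Nat.mod_add_mod, show i + N - 1 + 1 = i + N by omega, Nat.add_mod_right,
      Nat.mod_eq_of_lt hi]
  · intro h
    unfold rt at h
    rw [mem_image] at h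
    obtain ⟨j, hj, rfl⟩ := h
    rw [mem_Um' hN (Nat.mod_lt _ hN), rec_mod (rt_sub hN c) (rt_sub hN d), rec_rt hN hc hd]
    exact (mem_Um.mp hj).2

theorem rt_sdiff {c u : Finset ℕ} (hc : c ⊆ range N) (hu : u ⊆ c) :
    rt N (c \ u) = rt N c \ rt N u := by
  ext i
  unfold rt
  rw [mem_sdiff, mem_image, mem_image, mem_image]
  constructor
  · rintro ⟨j, hj, rfl⟩
    rw [mem_sdiff] at hj
    refine ⟨⟨j, hj.1, rfl⟩, ?_⟩
    rintro ⟨k, hk, h⟩
    have h1 := rt_inj (mem_range.mp (hc (hu hk))) (mem_range.mp (hc hj.1)) h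
    exact hj.2 (h1 ▸ hk)
  · rintro ⟨⟨j, hj, rfl⟩, h2⟩
    refine ⟨j, mem_sdiff.mpr ⟨hj, fun hju => h2 ⟨j, hju, rfl⟩⟩, rfl⟩

theorem st_BW2 : ST_BW2 := by
  classical
  intro N c d hN hc hd hcd
  have hcd' : (rt N d).card ≤ (rt N c).card := by
    rw [rt_card hc, rt_card hd]
    exact hcd
  constructor
  · unfold Rl
    rw [Um_rt hN hc hd, rt_sdiff hc Um_subset_c]
  · have h1 := Hen_eq N (rt N c) (rt N d)
    have h2 := Hen_eq N c d
    have h3 := Rm_step hN (rt_sub hN c) (rt_sub hN d) hcd' 0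
    have h4 : Rm N (rt N c) (rt N d) (0 + 1) = wlk N (rt N c) (rt N d) 1 + Rm N c d 0 := by
      obtain ⟨j, hj1, hj2, hj3⟩ := ex_Rm N c d 0
      obtain ⟨k, hk1, hk2, hk3⟩ := ex_Rm N (rt N c) (rt N d) (0 + 1)
      have e1 := wlk_rt hN hc hd j
      have e2 := wlk_rt hN hc hd (k - 1)
      rw [Nat.sub_add_cancel (by omega)] at e2
      have e3 : wlk N (rt N c) (rt N d) (j + 1) ≤ Rm N (rt N c) (rt N d) (0 + 1) :=
        le_Rm' (by omega) (by omega)
      have e4 : wlk N c d (k - 1) ≤ Rm N c d 0 := le_Rm' (by omega) (by omega)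
      omega
    have h5 := wlk_rt1 hN hc hd
    have h6 : Rec N (rt N c) (rt N d) 0 ↔ N - 1 ∈ Um N c d := by
      rw [mem_Um' hN (by omega), ← rec_rt hN hc hd, Nat.sub_add_cancel hN]
      have := rec_add (rt_sub hN c) (rt_sub hN d) 0
      rw [Nat.zero_add] at this
      exact this.symm
    have h7 : (N - 1 ∈ Rl N c d) ↔ (N - 1 ∈ c ∧ N - 1 ∉ Um N c d) := by
      unfold Rl
      rw [mem_sdiff]
    have h8 : N - 1 ∈ Um N c d → N - 1 ∈ c := fun h => Um_subset_c h
    by_cases a1 : N - 1 ∈ c <;> by_cases a2 : N - 1 ∈ d <;> by_cases a3 : N - 1 ∈ Um N c d <;>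
      simp only [a1, a2, a3, h6, h7, not_true, not_false_eq_true, and_true, and_false,
        if_true, if_false, imp_false, imp_true_iff] at h3 h5 h8 ⊢ <;> omega

end Pool.Agent.Helper72.HL
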