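import Pool.Agent.Helper7.HL.Stmts
import Pool.Agent.Helper72.HL.Wlk

/-!
# Row BW5: stability
-/

set_option autoImplicit false

namespace Pool.Agent.Helper72.HL

open Finset
open Pool.Agent.Helper7.HL

variable {N : ℕ} {c d : Finset ℕ}

theorem wlk_st1 (j : ℕ) (hj : j ≤ N) : wlk (N + 1) c d j = wlk N c d j := by
  induction j with
  | zero => rw [wlk_zero, wlk_zero]
  | succ j ih =>
    rw [wlk_succ, wlk_succ, ih (by omega), Nat.mod_eq_of_lt (show j < N by omega),
      Nat.mod_eq_of_lt (show j < N + 1 by omega)]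

theorem wlk_st2 (hc : c ⊆ range N) (hd : d ⊆ range N) (j : ℕ) (h1 : N ≤ j) (h2 : j ≤ N + N) :
    wlk (N + 1) c d (j + 1) = wlk N c d j := by
  induction j, h1 using Nat.le_induction with
  | base =>
    rw [wlk_succ, wlk_st1 N le_rfl, Nat.mod_eq_of_lt (show N < N + 1 by omega)]
    have h3 : N ∉ c := fun h => absurd (mem_range.mp (hc h)) (lt_irrefl N)
    have h4 : N ∉ d := fun h => absurd (mem_range.mp (hd h)) (lt_irrefl N)
    rw [if_neg h3, if_neg h4]
    ring
  | succ j hj ih =>
    rw [wlk_succ, wlk_succ N c d j, ih (by omega)]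
    have h3 : (j + 1) % (N + 1) = j - N := by
      rw [show j + 1 = (j - N) + (N + 1) by omega, Nat.add_mod_right]
      exact Nat.mod_eq_of_lt (by omega)
    have h4 : j % N = j - N := by
      conv_lhs => rw [show j = (j - N) + N by omega]
      rw [Nat.add_mod_right]
      exact Nat.mod_eq_of_lt (by omega)
    rw [h3, h4]

theorem st_BW5 : ST_BW5 := by
  intro N c d hc hd
  refine ⟨fun _ => ⟨?_, ?_⟩, ?_⟩
  · ext i
    rw [mem_Um, mem_Um]
    refine and_congr_right fun hi => ?_
    have hiN := mem_range.mp (hc hi)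
    constructor
    · intro h j hj
      rw [mem_Ioc] at hj
      rw [← wlk_st1 i hiN.le]
      by_cases hjN : j ≤ N
      · rw [← wlk_st1 j hjN]
        exact h j (mem_Ioc.mpr ⟨by omega, by omega⟩)
      · rw [← wlk_st2 hc hd j (by omega) (by omega)]
        exact h (j + 1) (mem_Ioc.mpr ⟨by omega, by omega⟩)
    · intro h j hj
      rw [mem_Ioc] at hj
      rw [wlk_st1 i hiN.le]
      by_cases hjN : j ≤ N
      · rw [wlk_st1 j hjN]
        exact h j (mem_Ioc.mpr ⟨by omega, by omega⟩)
      · have h1 := wlk_st2 hc hd (j - 1) (by omega) (by omega)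
        rw [Nat.sub_add_cancel (by omega)] at h1
        rw [h1]
        exact h (j - 1) (mem_Ioc.mpr ⟨by omega, by omega⟩)
  · unfold Hen
    apply le_antisymm
    · refine Finset.sup_le fun j hj => ?_
      rw [mem_range] at hj
      by_cases hjN : j ≤ N
      · rw [wlk_st1 j hjN]
        exact le_sup (f := fun j => (wlk N c d j).toNat) (mem_range.mpr (by omega))
      · have h1 := wlk_st2 hc hd N le_rfl (by omega)
        rw [show j = N + 1 by omega, h1]
        exact le_sup (f := fun j => (wlk N c d j).toNat) (mem_range.mpr (by omega))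
    · refine Finset.sup_le fun j hj => ?_
      rw [mem_range] at hj
      rw [← wlk_st1 j (by omega)]
      exact le_sup (f := fun j => (wlk (N + 1) c d j).toNat) (mem_range.mpr (by omega))
  · unfold Hen
    have h1 : ∀ j : ℕ, wlk N (range N) d j ≤ 0 := by
      intro j
      unfold wlk
      refine sum_nonpos fun i _ => ?_
      rcases Nat.eq_zero_or_pos N with h0 | hN
      · subst h0
        have hd0 : d = ∅ := subset_empty.mp hd
        subst hd0
        simp
      · rw [if_pos (mem_range.mpr (Nat.mod_lt i hN))]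
        split_ifs <;> norm_num
    apply le_antisymm
    · refine Finset.sup_le fun j _ => ?_
      rw [Int.toNat_of_nonpos (h1 j)]
    · exact Nat.zero_le _

end Pool.Agent.Helper72.HL
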